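import Mathlib

/-!
Project EX (helper71), part BLK, core: summation over blocks.
-/

set_option autoImplicit false

namespace Pool.Agent.N80.EX

open Finset

theorem block (a : ℕ → ℝ) (κ : ℝ) (y : ℕ) (ha : ∀ n, 0 ≤ a n) (hy : 1 ≤ y)
    (h1 : ∑ n ∈ Icc 1 y, a n ≤ 3 / 2 * (κ * y))
    (h2 : 1 / 2 * (κ * ((8 * y : ℕ) : ℝ)) ≤ ∑ n ∈ Icc 1 (8 * y), a n) :
    5 / 16 * κ ≤ ∑ n ∈ Ioc y (8 * y), a n / n := by
  have hyR : (0 : ℝ) < y := by exact_mod_cast hy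
  have hsplit : ∑ n ∈ Icc 1 (8 * y), a n = ∑ n ∈ Icc 1 y, a n + ∑ n ∈ Ioc y (8 * y), a n := by
    rw [← sum_union]
    · congr 1
      ext n
      rw [mem_union, mem_Icc, mem_Icc, mem_Ioc]
      omega
    · rw [disjoint_left]
      intro n hn hn'
      rw [mem_Icc] at hn
      rw [mem_Ioc] at hn'
      omega
  have h3 : (∑ n ∈ Ioc y (8 * y), a n) / (8 * y) ≤ ∑ n ∈ Ioc y (8 * y), a n / n := by
    rw [sum_div]
    refine sum_le_sum fun n hn => ?_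
    rw [mem_Ioc] at hn
    have hn0 : (0 : ℝ) < n := by exact_mod_cast (by omega : 0 < n)
    have hn8 : (n : ℝ) ≤ 8 * y := by exact_mod_cast hn.2
    exact div_le_div_of_nonneg_left (ha n) hn0 hn8
  refine le_trans ?_ h3
  rw [le_div_iff₀ (by positivity)]
  push_cast at h2
  linarith

theorem blk (a : ℕ → ℝ) (κ : ℝ) (x₁ x₂ : ℕ) (ha : ∀ n, 0 ≤ a n) (hκ : 0 < κ) (hx₁ : 1 ≤ x₁)
    (hx : 8 * x₁ ≤ x₂) (h : ∀ x : ℕ, x₁ ≤ x → x ≤ x₂ →
    1 / 2 * (κ * x) ≤ ∑ n ∈ Finset.Icc 1 x, a n ∧ ∑ n ∈ Finset.Icc 1 x, a n ≤ 3 / 2 * (κ * x)) :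
    κ * Real.log ((x₂ : ℝ) / x₁) / 16 ≤ ∑ n ∈ Finset.Ioc x₁ x₂, a n / n := by
  have hind : ∀ k : ℕ, 8 ^ k * x₁ ≤ x₂ →
      5 / 16 * κ * k ≤ ∑ n ∈ Ioc x₁ (8 ^ k * x₁), a n / n := by
    intro k
    induction k with
    | zero =>
      intro _
      simp
    | succ k ih =>
      intro hk
      have e1 : 8 ^ (k + 1) * x₁ = 8 * (8 ^ k * x₁) := by ring
      rw [e1] at hk ⊢
      have h8 : 1 ≤ 8 ^ k := Nat.one_le_pow _ _ (by norm_num)
      have h9 : x₁ ≤ 8 ^ k * x₁ := Nat.le_mul_of_pos_left _ h8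
      have h3 := ih (by omega)
      have h4 := block a κ (8 ^ k * x₁) ha (by omega) (h _ h9 (by omega)).2
        (h _ (by omega) hk).1
      have hsplit : ∑ n ∈ Ioc x₁ (8 * (8 ^ k * x₁)), a n / n =
          ∑ n ∈ Ioc x₁ (8 ^ k * x₁), a n / n +
            ∑ n ∈ Ioc (8 ^ k * x₁) (8 * (8 ^ k * x₁)), a n / n := by
        rw [← sum_union]
        · congr 1
          ext n
          rw [mem_union, mem_Ioc, mem_Ioc, mem_Ioc]
          omega
        · rw [disjoint_left]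
          intro n hn hn'
          rw [mem_Ioc] at hn hn'
          omega
      rw [hsplit]
      push_cast
      linarith
  obtain ⟨k, hk⟩ : ∃ k, k = Nat.log 8 (x₂ / x₁) := ⟨_, rfl⟩
  have hd : 8 ≤ x₂ / x₁ := (Nat.le_div_iff_mul_le (by omega)).2 hx
  have hk1 : 8 ^ k * x₁ ≤ x₂ := by
    rw [← Nat.le_div_iff_mul_le (by omega), hk]
    exact Nat.pow_log_le_self 8 (by omega)
  have hk2 : x₂ < 8 ^ (k + 1) * x₁ := by
    rw [← Nat.div_lt_iff_lt_mul (by omega), hk]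
    exact Nat.lt_pow_succ_log_self (by norm_num) _
  have hk3 : 1 ≤ k := by
    rw [hk]
    exact Nat.log_pos (by norm_num) hd
  have hx₁R : (0 : ℝ) < x₁ := by exact_mod_cast hx₁
  have hx₂R : (0 : ℝ) < x₂ := by exact_mod_cast (by omega : 0 < x₂)
  have hlog : Real.log ((x₂ : ℝ) / x₁) ≤ (k + 1) * (3 * Real.log 2) := by
    have h5 : (x₂ : ℝ) / x₁ ≤ 8 ^ (k + 1) := by
      rw [div_le_iff₀ hx₁R]
      exact_mod_cast hk2.le
    have h6 := Real.log_le_log (by positivity) h5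
    rw [Real.log_pow] at h6
    have h7 : Real.log 8 = 3 * Real.log 2 := by
      rw [show (8 : ℝ) = 2 ^ 3 by norm_num, Real.log_pow]
      norm_num
    rw [h7] at h6
    push_cast at h6
    exact h6
  have h2 := Real.log_two_lt_d9
  have hkR : (1 : ℝ) ≤ k := by exact_mod_cast hk3
  have h8 : Real.log ((x₂ : ℝ) / x₁) ≤ 5 * k := by nlinarith
  have h9 := hind k hk1
  have h10 : ∑ n ∈ Ioc x₁ (8 ^ k * x₁), a n / n ≤ ∑ n ∈ Ioc x₁ x₂, a n / n := by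
    refine sum_le_sum_of_subset_of_nonneg (Ioc_subset_Ioc_right hk1) fun n _ _ =>
      div_nonneg (ha n) (Nat.cast_nonneg _)
  have h11 : κ * Real.log ((x₂ : ℝ) / x₁) ≤ κ * (5 * k) := mul_le_mul_of_nonneg_left h8 hκ.le
  linarith

end Pool.Agent.N80.EX
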