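import Pool.Agent.N71.EX.Stm
import Pool.Agent.N80.EX.BLK0

/-!
Project EX (helper71), part BLK: summation over blocks.
-/

set_option autoImplicit false

namespace Pool.Agent.N80.EX

theorem t_BLK : Pool.Agent.N71.EX.E_BLK := by
  intro a κ x₁ x₂ ha hκ hx₁ hx h
  exact blk a κ x₁ x₂ ha hκ hx₁ hx h

end Pool.Agent.N80.EX
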